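import Mathlib

/-!
# Klamkin's problem: perimeter-bisecting points of convex curves are centres of symmetry

If every line through `O` bisects the perimeter of the boundary of a plane convex body, the curve
is centrally symmetric with respect to `O`.
-/

namespace Pool.Agent.Results.MP_7f2f72_gt.KlamkinSymmetry

open MeasureTheory Set Metric Filter
open scoped Topology NNReal ENNReal

/-- The Euclidean plane. -/
abbrev Plane := EuclideanSpace ℝ (Fin 2)

/-- Length: one-dimensional Hausdorff measure. -/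
noncomputable def len (A : Set Plane) : ℝ≥0∞ := Measure.hausdorffMeasure 1 A

/-- `C` is a convex closed curve: the boundary of a compact convex set with nonempty interior. -/
def IsConvexClosedCurve (C : Set Plane) : Prop :=
  ∃ K : Set Plane, IsCompact K ∧ Convex ℝ K ∧ (interior K).Nonempty ∧ C = frontier K

/-- The line through `O` with normal vector `u ≠ 0` bisects the perimeter of `C`: the two open
half-planes contain parts of `C` of equal length. -/
def Bisects (C : Set Plane) (O u : Plane) : Prop :=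
  len (C ∩ {x | 0 < (inner ℝ u (x - O) : ℝ)}) = len (C ∩ {x | (inner ℝ u (x - O) : ℝ) < 0})

/-! ### Arcs given by convex functions -/

/-- The arc `(e + t f) / h t`. -/
noncomputable def arc (e f : Plane) (h : ℝ → ℝ) (t : ℝ) : Plane := (h t)⁻¹ • (e + t • f)

/-- The right derivative of the arc at zero. -/
noncomputable def vel (e f : Plane) (h0 a : ℝ) : Plane := h0⁻¹ • f - (a / h0 ^ 2) • e

section arcs

variable {e f : Plane} {h : ℝ → ℝ} {a : ℝ}

lemma h_cont (hc : ConvexOn ℝ univ h) : Continuous h := by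
  have := hc.continuousOn isOpen_univ
  exact continuousOn_univ.mp this

lemma arc_hasDeriv (hpos : ∀ t, 0 < h t) (ha : HasDerivWithinAt h a (Ioi 0) 0) :
    HasDerivWithinAt (arc e f h) (vel e f (h 0) a) (Ioi 0) 0 := by
  have h1 : HasDerivWithinAt (fun t => (h t)⁻¹) (-a / h 0 ^ 2) (Ioi 0) 0 :=
    ha.fun_inv (hpos 0).ne'
  have h2 : HasDerivWithinAt (fun t : ℝ => e + t • f) f (Ioi 0) 0 := by
    have := ((hasDerivWithinAt_id (0:ℝ) (Ioi 0)).smul_const f).const_add e
    simpa using this
  have h3 := h1.smul h2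
  unfold arc vel
  refine h3.congr_deriv ?_
  simp
  module

/-- Lower bound for the length of short arcs. -/
lemma arc_lower (hcont : Continuous h) (hpos : ∀ t, 0 < h t)
    (ha : HasDerivWithinAt h a (Ioi 0) 0) (ε : ℝ) (hε : 0 < ε) :
    ∀ᶠ t in 𝓝[>] (0:ℝ), ENNReal.ofReal ((‖vel e f (h 0) a‖ - ε) * t)
      ≤ len (arc e f h '' Ioo 0 t) := by
  have hd := arc_hasDeriv (e := e) (f := f) hpos ha
  rw [hasDerivWithinAt_iff_tendsto_slope' (by simp)] at hd
  have h1 : Tendsto (fun t => ‖slope (arc e f h) 0 t‖) (𝓝[>] 0) (𝓝 ‖vel e f (h 0) a‖) := hd.norm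
  have h2 : ∀ᶠ t in 𝓝[>] (0:ℝ), ‖vel e f (h 0) a‖ - ε < ‖slope (arc e f h) 0 t‖ :=
    h1.eventually (lt_mem_nhds (by linarith))
  have hac : Continuous (arc e f h) := by
    unfold arc
    exact (hcont.inv₀ (fun t => (hpos t).ne')).smul (by fun_prop)
  filter_upwards [h2, self_mem_nhdsWithin] with t ht ht0
  have ht0' : 0 < t := ht0
  -- chord length
  set w : Plane := arc e f h t - arc e f h 0 with hw
  have hwn : (‖vel e f (h 0) a‖ - ε) * t ≤ ‖w‖ := by
    rw [slope_def_module, sub_zero, norm_smul, norm_inv, Real.norm_of_nonneg ht0'.le] at ht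
    rw [← hw] at ht
    have := mul_lt_mul_of_pos_right ht ht0'
    rw [mul_comm (t⁻¹) ‖w‖, mul_assoc, inv_mul_cancel₀ ht0'.ne', mul_one] at this
    exact this.le
  refine (ENNReal.ofReal_le_ofReal hwn).trans ?_
  by_cases hw0 : w = 0
  · rw [hw0]; simp
  -- projection
  set v : Plane := (‖w‖)⁻¹ • w with hv
  have hwpos : 0 < ‖w‖ := norm_pos_iff.mpr hw0
  have hvn : ‖v‖ = 1 := by
    rw [hv, norm_smul, norm_inv, norm_norm, inv_mul_cancel₀ hwpos.ne']
  have hlip : LipschitzWith 1 (fun x : Plane => (inner ℝ v x : ℝ)) := by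
    apply LipschitzWith.of_dist_le_mul
    intro x y
    rw [Real.dist_eq, ← inner_sub_right, dist_eq_norm]
    have := abs_real_inner_le_norm v (x - y)
    rw [hvn] at this
    simpa using this
  have h3 := hlip.hausdorffMeasure_image_le (d := 1) zero_le_one (arc e f h '' Ioo 0 t)
  rw [hausdorffMeasure_real] at h3
  simp only [ENNReal.coe_one, ENNReal.one_rpow, one_mul] at h3
  refine le_trans ?_ h3
  -- the projection contains an open interval
  set φ : ℝ → ℝ := fun s => inner ℝ v (arc e f h s) with hφ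
  have hφc : Continuous φ := by
    rw [hφ]
    exact continuous_const.inner hac
  have hφw : φ t - φ 0 = ‖w‖ := by
    simp only [hφ]
    rw [← inner_sub_right, ← hw, hv, inner_smul_left, real_inner_self_eq_norm_sq]
    simp
    field_simp
  have hsub : Ioo (φ 0) (φ t) ⊆ (fun x : Plane => (inner ℝ v x : ℝ)) '' (arc e f h '' Ioo 0 t) := by
    intro y hy
    have := intermediate_value_Ioo ht0'.le hφc.continuousOn hy
    obtain ⟨s, hs, hsy⟩ := this
    exact ⟨arc e f h s, ⟨s, hs, rfl⟩, hsy⟩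
  calc ENNReal.ofReal ‖w‖ = volume (Ioo (φ 0) (φ t)) := by rw [Real.volume_Ioo, hφw]
    _ ≤ _ := measure_mono hsub

/-- Upper bound for the length of short arcs. -/
lemma arc_upper (hc : ConvexOn ℝ univ h) (hpos : ∀ t, 0 < h t)
    (ha : HasDerivWithinAt h a (Ioi 0) 0) (ε : ℝ) (hε : 0 < ε) :
    ∀ᶠ t in 𝓝[>] (0:ℝ), len (arc e f h '' Ioo 0 t)
      ≤ ENNReal.ofReal ((‖vel e f (h 0) a‖ + ε) * t) := by
  have hcont := h_cont hc
  -- the difference quotient as a continuous function of three parameters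
  set Φ : ℝ × ℝ × ℝ → ℝ := fun p =>
    ‖(h p.1 * h p.2.1)⁻¹ • (h p.1 • f - p.2.2 • (e + p.1 • f))‖ with hΦ
  have hΦc : Continuous Φ := by
    rw [hΦ]
    have h1 : Continuous fun p : ℝ × ℝ × ℝ => (h p.1 * h p.2.1)⁻¹ := by
      apply Continuous.inv₀
      · exact (hcont.comp continuous_fst).mul (hcont.comp (continuous_fst.comp continuous_snd))
      · intro p
        exact (mul_pos (hpos _) (hpos _)).ne'
    have h2 : Continuous fun p : ℝ × ℝ × ℝ => h p.1 := hcont.comp continuous_fst
    fun_prop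
  have hΦ0 : Φ (0, 0, a) = ‖vel e f (h 0) a‖ := by
    simp only [hΦ, vel]
    congr 1
    have := (hpos 0).ne'
    simp only [zero_smul, add_zero, smul_sub, smul_smul]
    congr 2
    · field_simp
    · field_simp
  have hnear : ∀ᶠ p in 𝓝 ((0:ℝ), (0:ℝ), a), Φ p < ‖vel e f (h 0) a‖ + ε := by
    have := hΦc.tendsto (0, 0, a)
    rw [hΦ0] at this
    exact this.eventually (gt_mem_nhds (by linarith))
  rw [Metric.eventually_nhds_iff] at hnear
  obtain ⟨δ, hδ, hnear⟩ := hnear
  -- slopes
  have hs := ha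
  rw [hasDerivWithinAt_iff_tendsto_slope' (by simp)] at hs
  have hs2 : Tendsto (fun t : ℝ => slope h 0 (2 * t)) (𝓝[>] 0) (𝓝 a) := by
    apply hs.comp
    apply tendsto_nhdsWithin_of_tendsto_nhds_of_eventually_within
    · have : Tendsto (fun t : ℝ => 2 * t) (𝓝 0) (𝓝 0) := by
        have h0 : Continuous fun t : ℝ => 2 * t := by fun_prop
        have := h0.tendsto 0
        simpa using this
      exact this.mono_left nhdsWithin_le_nhds
    · filter_upwards [self_mem_nhdsWithin] with t ht
      have ht' : 0 < t := ht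
      change 0 < 2 * t
      linarith
  have hs3 : Tendsto (fun t : ℝ => 2 * slope h 0 (2 * t) - slope h 0 t) (𝓝[>] 0) (𝓝 a) := by
    have := (hs2.const_mul 2).sub hs
    have e : 2 * a - a = a := by ring
    rwa [e] at this
  have hs4 : ∀ᶠ t in 𝓝[>] (0:ℝ), 2 * slope h 0 (2 * t) - slope h 0 t < a + δ :=
    hs3.eventually (gt_mem_nhds (by linarith))
  have hs5 : ∀ᶠ t in 𝓝[>] (0:ℝ), t ∈ Ioo 0 δ := Ioo_mem_nhdsGT hδ
  filter_upwards [hs4, hs5] with t ht1 ht2
  have ht0 : 0 < t := ht2.1
  have hslope : 2 * slope h 0 (2 * t) - slope h 0 t = (h (2 * t) - h t) / t := by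
    rw [slope_def_field, slope_def_field, sub_zero, sub_zero]
    have := ht0.ne'
    field_simp
    ring
  rw [hslope] at ht1
  set V := ‖vel e f (h 0) a‖ with hV
  have hV0 : 0 ≤ V := norm_nonneg _
  have hlip : LipschitzOnWith (Real.toNNReal (V + ε)) (arc e f h) (Ioo 0 t) := by
    have key : ∀ s1 ∈ Ioo 0 t, ∀ s2 ∈ Ioo 0 t, s1 < s2 →
        ‖arc e f h s2 - arc e f h s1‖ ≤ (V + ε) * (s2 - s1) := by
      intro s1 h1 s2 h2 h12
      set σ : ℝ := (h s2 - h s1) / (s2 - s1) with hσ
      have h12' : 0 < s2 - s1 := by linarith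
      have hσ1 : a ≤ σ := by
        have k1 := hc.le_slope_of_hasDerivWithinAt_Ioi (mem_univ 0) (mem_univ s1) h1.1 ha
        have k2 := hc.slope_mono_adjacent (mem_univ 0) (mem_univ s2) h1.1 h12
        rw [slope_def_field] at k1
        exact k1.trans k2
      have hσ2 : σ ≤ (h (2 * t) - h t) / t := by
        have k2 := hc.slope_mono_adjacent (mem_univ s1) (mem_univ (2 * t)) h12
          (show s2 < 2 * t by linarith [h2.2])
        have k3 := hc.secant_mono (mem_univ (2 * t)) (mem_univ s2) (mem_univ t)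
          (by linarith [h2.2]) (by linarith) h2.2.le
        have k4 : (h s2 - h (2 * t)) / (s2 - 2 * t) = (h (2 * t) - h s2) / (2 * t - s2) := by
          rw [← neg_sub (h (2 * t)), ← neg_sub (2 * t), neg_div_neg_eq]
        have k5 : (h t - h (2 * t)) / (t - 2 * t) = (h (2 * t) - h t) / t := by
          have : t - 2 * t = -t := by ring
          rw [← neg_sub (h (2 * t)), this, neg_div_neg_eq]
        rw [k4, k5] at k3
        exact k2.trans k3
      have hp : dist (s1, s2, σ) ((0:ℝ), (0:ℝ), a) < δ := by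
        rw [Prod.dist_eq, Prod.dist_eq, max_lt_iff, max_lt_iff]
        simp only [Real.dist_eq, sub_zero]
        refine ⟨?_, ?_, ?_⟩
        · rw [abs_of_pos h1.1]; linarith [h1.2, ht2.2]
        · rw [abs_of_pos h2.1]; linarith [h2.2, ht2.2]
        · rw [abs_of_nonneg (by linarith)]; linarith
      have hΦp := hnear hp
      have e1 : arc e f h s2 - arc e f h s1
          = (s2 - s1) • ((h s1 * h s2)⁻¹ • (h s1 • f - σ • (e + s1 • f))) := by
        have n1 := (hpos s1).ne'
        have n2 := (hpos s2).ne'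
        have e2 : (s2 - s1) * σ = h s2 - h s1 := by
          rw [hσ]; field_simp
        unfold arc
        have e3 : (s2 - s1) • ((h s1 * h s2)⁻¹ • (h s1 • f - σ • (e + s1 • f)))
            = (h s1 * h s2)⁻¹ • (((s2 - s1) * h s1) • f - ((s2 - s1) * σ) • (e + s1 • f)) := by
          module
        rw [e3, e2]
        have e4 : (h s1 * h s2)⁻¹ • (((s2 - s1) * h s1) • f - (h s2 - h s1) • (e + s1 • f))
            = (h s1 * h s2)⁻¹ • ((h s1) • (e + s2 • f) - (h s2) • (e + s1 • f)) := by
          congr 1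
          module
        rw [e4, smul_sub, smul_smul, smul_smul]
        congr 2
        · field_simp
        · field_simp
      rw [e1, norm_smul, Real.norm_of_nonneg h12'.le, mul_comm]
      exact mul_le_mul_of_nonneg_right hΦp.le h12'.le
    apply LipschitzOnWith.of_dist_le_mul
    intro x hx y hy
    rw [Real.coe_toNNReal _ (by linarith)]
    rcases lt_trichotomy x y with hxy | hxy | hxy
    · rw [dist_comm, dist_eq_norm, dist_comm, Real.dist_eq, abs_of_pos (by linarith)]
      exact key x hx y hy hxy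
    · rw [hxy]; simp
    · rw [dist_eq_norm, Real.dist_eq, abs_of_pos (by linarith)]
      exact key y hy x hx hxy
  have h6 := hlip.hausdorffMeasure_image_le (d := 1) zero_le_one
  rw [hausdorffMeasure_real, Real.volume_Ioo, sub_zero, ENNReal.rpow_one] at h6
  refine h6.trans ?_
  rw [ENNReal.ofReal_mul (by linarith)]
  exact le_rfl

/-- Arcs of equal length have velocities of equal norm. -/
lemma vel_le {e' f' : Plane} {k : ℝ → ℝ} {b : ℝ} (hc : ConvexOn ℝ univ h) (hpos : ∀ t, 0 < h t)
    (ha : HasDerivWithinAt h a (Ioi 0) 0) (kc : ConvexOn ℝ univ k) (kpos : ∀ t, 0 < k t)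
    (kb : HasDerivWithinAt k b (Ioi 0) 0)
    (heq : ∀ t, 0 < t → len (arc e f h '' Ioo 0 t) ≤ len (arc e' f' k '' Ioo 0 t)) :
    ‖vel e f (h 0) a‖ ≤ ‖vel e' f' (k 0) b‖ := by
  apply le_of_forall_pos_le_add
  intro ε hε
  have h1 := arc_lower (e := e) (f := f) (h_cont hc) hpos ha (ε / 2) (by linarith)
  have h2 := arc_upper (e := e') (f := f') kc kpos kb (ε / 2) (by linarith)
  have h3 : ∀ᶠ t in 𝓝[>] (0:ℝ), 0 < t := self_mem_nhdsWithin
  obtain ⟨t, ⟨ht1, ht2⟩, ht0⟩ := ((h1.and h2).and h3).exists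
  have h4 := (ht1.trans (heq t ht0)).trans ht2
  have h5 : 0 ≤ (‖vel e' f' (k 0) b‖ + ε / 2) * t := by positivity
  rw [ENNReal.ofReal_le_ofReal_iff h5] at h4
  have h6 := le_of_mul_le_mul_right h4 ht0
  linarith

end arcs

/-! ### Convex bodies containing the origin in the interior -/

section body

variable {K : Set Plane}

lemma gauge_pos' (hK : IsCompact K) (h0 : (0 : Plane) ∈ interior K) {x : Plane} (hx : x ≠ 0) :
    0 < gauge K x := by
  have h1 : Absorbent ℝ K := absorbent_nhds_zero (mem_interior_iff_mem_nhds.mp h0)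
  exact (gauge_pos h1 (NormedSpace.isVonNBounded_of_isBounded _ hK.isBounded)).mpr hx

lemma gauge_eq_one_iff (hc : Convex ℝ K) (h0 : (0 : Plane) ∈ interior K) (x : Plane) :
    gauge K x = 1 ↔ x ∈ frontier K :=
  gauge_eq_one_iff_mem_frontier hc (mem_interior_iff_mem_nhds.mp h0)

lemma gauge_line_convex (hc : Convex ℝ K) (h0 : (0 : Plane) ∈ interior K) (e f : Plane) :
    ConvexOn ℝ univ (fun t : ℝ => gauge K (e + t • f)) := by
  refine ⟨convex_univ, ?_⟩
  intro s _ t _ a b ha hb hab
  have e1 : e + (a • s + b • t) • f = a • (e + s • f) + b • (e + t • f) := by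
    have ha' : a = 1 - b := by linarith
    rw [ha']
    simp only [smul_eq_mul]
    module
  simp only
  rw [e1]
  refine (gauge_add_le hc (absorbent_nhds_zero (mem_interior_iff_mem_nhds.mp h0)) _ _).trans ?_
  rw [gauge_smul_of_nonneg ha, gauge_smul_of_nonneg hb]

lemma ne_zero_of_orth {e f : Plane} (he : ‖e‖ = 1) (hef : (inner ℝ e f : ℝ) = 0) (t : ℝ) :
    e + t • f ≠ 0 := by
  intro h
  have h1 : (inner ℝ e (e + t • f) : ℝ) = 1 := by
    rw [inner_add_right, inner_smul_right, hef, real_inner_self_eq_norm_sq, he]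
    norm_num
  rw [h, inner_zero_right] at h1
  norm_num at h1

lemma decomp {e f : Plane} (he : ‖e‖ = 1) (hf : ‖f‖ = 1) (hef : (inner ℝ e f : ℝ) = 0)
    (x : Plane) : x = (inner ℝ e x : ℝ) • e + (inner ℝ f x : ℝ) • f := by
  have ho : Orthonormal ℝ ![e, f] := by
    rw [orthonormal_iff_ite]
    intro i j
    fin_cases i <;> fin_cases j
    · simp [he]
    · simpa using hef
    · simpa [real_inner_comm] using hef
    · simp [hf]
  have hspan : ⊤ ≤ Submodule.span ℝ (range ![e, f]) := by
    rw [ho.linearIndependent.span_eq_top_of_card_eq_finrank' (by simp)]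
  set b := OrthonormalBasis.mk ho hspan with hb
  have h1 := b.sum_repr' x
  rw [Fin.sum_univ_two] at h1
  simp only [hb, OrthonormalBasis.coe_mk] at h1
  simpa using h1.symm

lemma arc_image (hK : IsCompact K) (hc : Convex ℝ K) (h0 : (0 : Plane) ∈ interior K)
    {e f : Plane} (he : ‖e‖ = 1) (hf : ‖f‖ = 1) (hef : (inner ℝ e f : ℝ) = 0) {t : ℝ}
    (ht : 0 < t) : arc e f (fun s => gauge K (e + s • f)) '' Ioo 0 t
      = frontier K ∩ {x | 0 < (inner ℝ f x : ℝ) ∧ (inner ℝ f x : ℝ) < t * inner ℝ e x} := by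
  have hfe : (inner ℝ f e : ℝ) = 0 := by rw [real_inner_comm]; exact hef
  ext x
  constructor
  · rintro ⟨s, ⟨hs0, hst⟩, rfl⟩
    have hg : 0 < gauge K (e + s • f) := gauge_pos' hK h0 (ne_zero_of_orth he hef s)
    have hi : 0 < (gauge K (e + s • f))⁻¹ := inv_pos.mpr hg
    refine ⟨?_, ?_, ?_⟩
    · rw [← gauge_eq_one_iff hc h0]
      unfold arc
      rw [gauge_smul_of_nonneg hi.le, smul_eq_mul, inv_mul_cancel₀ hg.ne']
    · unfold arc
      rw [inner_smul_right, inner_add_right, inner_smul_right, hfe, real_inner_self_eq_norm_sq, hf]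
      have : 0 < (gauge K (e + s • f))⁻¹ * s := by positivity
      linarith
    · unfold arc
      rw [inner_smul_right, inner_add_right, inner_smul_right, hfe, real_inner_self_eq_norm_sq, hf,
        inner_smul_right, inner_add_right, inner_smul_right, hef, real_inner_self_eq_norm_sq, he]
      have : (gauge K (e + s • f))⁻¹ * s < (gauge K (e + s • f))⁻¹ * t :=
        mul_lt_mul_of_pos_left hst hi
      linarith
  · rintro ⟨hx, hb, hbt⟩
    set b : ℝ := inner ℝ f x with hbdef
    set a : ℝ := inner ℝ e x with hadef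
    have ha : 0 < a := by
      by_contra hcon
      push Not at hcon
      have : t * a ≤ 0 := mul_nonpos_of_nonneg_of_nonpos ht.le hcon
      linarith
    have hdx : x = a • (e + (b / a) • f) := by
      have := decomp he hf hef x
      rw [← hbdef, ← hadef] at this
      rw [smul_add, smul_smul, mul_div_cancel₀ _ ha.ne']
      exact this
    have hg1 := (gauge_eq_one_iff hc h0 x).mpr hx
    rw [hdx, gauge_smul_of_nonneg ha.le, smul_eq_mul] at hg1
    have hg : gauge K (e + (b / a) • f) = a⁻¹ := by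
      field_simp
      linarith
    refine ⟨b / a, ⟨by positivity, ?_⟩, ?_⟩
    · rw [div_lt_iff₀ ha]; exact hbt
    · change (gauge K (e + (b / a) • f))⁻¹ • (e + (b / a) • f) = x
      rw [hg, inv_inv]
      exact hdx.symm

/-- Lines through the origin meet the boundary in a null set. -/
lemma line_null (hc : Convex ℝ K) (h0 : (0 : Plane) ∈ interior K)
    (w : Plane) (A : Set Plane) (hA : ∀ x ∈ A, ∃ c : ℝ, x = c • w) :
    len (frontier K ∩ A) = 0 := by
  have hsub : frontier K ∩ A ⊆ {(gauge K w)⁻¹ • w, (gauge K (-w))⁻¹ • (-w)} := by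
    rintro x ⟨hx, hxA⟩
    obtain ⟨c, rfl⟩ := hA x hxA
    have hg := (gauge_eq_one_iff hc h0 _).mpr hx
    rcases lt_trichotomy c 0 with h | h | h
    · right
      have e1 : c • w = (-c) • (-w) := by module
      rw [e1, gauge_smul_of_nonneg (by linarith), smul_eq_mul] at hg
      rw [mem_singleton_iff, e1]
      congr 1
      exact eq_inv_of_mul_eq_one_left hg
    · rw [h, zero_smul, gauge_zero] at hg
      norm_num at hg
    · left
      rw [gauge_smul_of_nonneg h.le, smul_eq_mul] at hg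
      congr 1
      exact eq_inv_of_mul_eq_one_left hg
  have : NullSingletonClass (Measure.hausdorffMeasure 1 : Measure Plane) :=
    Measure.nullSingletonClass_hausdorff Plane (by norm_num)
  exact measure_mono_null hsub ((Set.toFinite _).measure_zero _)

/-- The boundary has finite length. -/
lemma len_lt_top (hK : IsCompact K) (hc : Convex ℝ K) (h0 : (0 : Plane) ∈ interior K) :
    len (frontier K) < ⊤ := by
  -- parametrisation of the unit circle
  set U : ℝ → Plane := fun θ => !₂[Real.cos θ, Real.sin θ] with hU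
  have hUn : ∀ θ, ‖U θ‖ = 1 := by
    intro θ
    have h1 : ‖U θ‖ ^ 2 = 1 := by
      rw [EuclideanSpace.real_norm_sq_eq, Fin.sum_univ_two]
      simp [hU]
    have := norm_nonneg (U θ)
    nlinarith
  have hUlip : ∀ θ φ, ‖U θ - U φ‖ ≤ |θ - φ| := by
    intro θ φ
    have h1 : ‖U θ - U φ‖ ^ 2 ≤ |θ - φ| ^ 2 := by
      rw [EuclideanSpace.real_norm_sq_eq, Fin.sum_univ_two, sq_abs]
      simp [hU]
      have h2 := Real.one_sub_sq_div_two_le_cos (x := θ - φ)
      rw [Real.cos_sub] at h2
      nlinarith [Real.sin_sq_add_cos_sq θ, Real.sin_sq_add_cos_sq φ]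
    exact (pow_le_pow_iff_left₀ (norm_nonneg _) (abs_nonneg _) two_ne_zero).mp h1
  have hUsurj : ∀ x : Plane, ‖x‖ = 1 → ∃ θ ∈ Icc (-Real.pi) Real.pi, U θ = x := by
    intro x hx
    have h1 : x 0 ^ 2 + x 1 ^ 2 = 1 := by
      have := EuclideanSpace.real_norm_sq_eq x
      rw [Fin.sum_univ_two, hx] at this
      linarith
    set z : ℂ := ⟨x 0, x 1⟩ with hz
    have hzn : ‖z‖ = 1 := by
      rw [Complex.norm_eq_sqrt_sq_add_sq]
      simp [hz, h1]
    have hz0 : z ≠ 0 := by
      intro h
      rw [h] at hzn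
      simp at hzn
    refine ⟨z.arg, ⟨(Complex.neg_pi_lt_arg z).le, Complex.arg_le_pi z⟩, ?_⟩
    have hcos := Complex.cos_arg hz0
    have hsin := Complex.sin_arg z
    rw [hzn, div_one] at hcos hsin
    ext i
    fin_cases i
    · change Real.cos z.arg = x 0
      rw [hcos]
    · change Real.sin z.arg = x 1
      rw [hsin]
  -- Lipschitz gauge and lower bound
  obtain ⟨r, hr0, hr⟩ := Metric.isOpen_iff.mp isOpen_interior 0 h0
  obtain ⟨L, hL⟩ : ∃ L : ℝ≥0, LipschitzWith L (gauge K) :=
    ⟨(⟨r, hr0.le⟩ : ℝ≥0)⁻¹, hc.lipschitzWith_gauge hr0 (hr.trans interior_subset)⟩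
  have hcont := continuous_gauge hc (mem_interior_iff_mem_nhds.mp h0)
  obtain ⟨x0, hx0, hmin⟩ := (isCompact_sphere (0 : Plane) 1).exists_isMinOn
    ⟨U 0, by rw [mem_sphere_zero_iff_norm]; exact hUn 0⟩ hcont.continuousOn
  have hx0n : ‖x0‖ = 1 := mem_sphere_zero_iff_norm.mp hx0
  set m : ℝ := gauge K x0 with hm
  have hm0 : 0 < m := gauge_pos' hK h0 (by
    intro h; rw [h] at hx0n; simp at hx0n)
  have hml : ∀ x : Plane, ‖x‖ = 1 → m ≤ gauge K x := fun x hx =>
    hmin (mem_sphere_zero_iff_norm.mpr hx)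
  set Γ : ℝ → Plane := fun θ => (gauge K (U θ))⁻¹ • U θ with hΓ
  have hΓlip : LipschitzOnWith (Real.toNNReal (m⁻¹ + L / m ^ 2)) Γ (Icc (-Real.pi) Real.pi) := by
    apply LipschitzOnWith.of_dist_le_mul
    intro θ _ φ _
    rw [Real.coe_toNNReal _ (by positivity), dist_eq_norm, Real.dist_eq]
    have g1 := hml (U θ) (hUn θ)
    have g2 := hml (U φ) (hUn φ)
    have p1 : 0 < gauge K (U θ) := by linarith
    have p2 : 0 < gauge K (U φ) := by linarith
    have e1 : Γ θ - Γ φ = (gauge K (U θ))⁻¹ • (U θ - U φ)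
        + ((gauge K (U φ) - gauge K (U θ)) / (gauge K (U θ) * gauge K (U φ))) • U φ := by
      have e2 : (gauge K (U φ) - gauge K (U θ)) / (gauge K (U θ) * gauge K (U φ))
          = (gauge K (U θ))⁻¹ - (gauge K (U φ))⁻¹ := by
        field_simp
      rw [e2]
      simp only [hΓ]
      module
    have hu := hUlip θ φ
    have hg := hL.dist_le_mul (U φ) (U θ)
    rw [Real.dist_eq, dist_eq_norm, norm_sub_rev] at hg
    rw [e1]
    refine (norm_add_le _ _).trans ?_
    rw [norm_smul, norm_smul, hUn φ, mul_one, Real.norm_of_nonneg (by positivity), Real.norm_eq_abs,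
      abs_div, abs_of_pos (mul_pos p1 p2), add_mul]
    apply add_le_add
    · exact mul_le_mul (inv_anti₀ hm0 g1) hu (norm_nonneg _) (by positivity)
    · rw [div_mul_eq_mul_div]
      apply div_le_div₀ (by positivity) _ (by positivity) _
      · exact hg.trans (mul_le_mul_of_nonneg_left hu L.2)
      · nlinarith
  have hsub : frontier K ⊆ Γ '' Icc (-Real.pi) Real.pi := by
    intro x hx
    have hg := (gauge_eq_one_iff hc h0 x).mpr hx
    have hx0 : x ≠ 0 := by
      rintro rfl
      rw [gauge_zero] at hg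
      norm_num at hg
    have hn : 0 < ‖x‖ := norm_pos_iff.mpr hx0
    obtain ⟨θ, hθ, hθx⟩ := hUsurj ((‖x‖)⁻¹ • x) (by
      rw [norm_smul, norm_inv, norm_norm, inv_mul_cancel₀ hn.ne'])
    refine ⟨θ, hθ, ?_⟩
    simp only [hΓ]
    rw [hθx, gauge_smul_of_nonneg (inv_nonneg.mpr hn.le), hg, smul_eq_mul, mul_one, inv_inv,
      smul_smul, mul_inv_cancel₀ hn.ne', one_smul]
  have h6 := hΓlip.hausdorffMeasure_image_le (d := 1) zero_le_one
  rw [hausdorffMeasure_real, Real.volume_Icc, ENNReal.rpow_one] at h6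
  calc len (frontier K) ≤ len (Γ '' Icc (-Real.pi) Real.pi) := measure_mono hsub
    _ ≤ _ := h6
    _ < ⊤ := ENNReal.mul_lt_top ENNReal.coe_lt_top ENNReal.ofReal_lt_top

/-- Opposite sectors contain arcs of equal length. -/
lemma sector_equal (hK : IsCompact K) (hc : Convex ℝ K) (h0 : (0 : Plane) ∈ interior K)
    (hbis : ∀ u : Plane, u ≠ 0 → Bisects (frontier K) 0 u)
    {e f : Plane} (he : ‖e‖ = 1) (hf : ‖f‖ = 1) (hef : (inner ℝ e f : ℝ) = 0) {t : ℝ}
    (ht : 0 < t) :
    len (frontier K ∩ {x | 0 < (inner ℝ f x : ℝ) ∧ (inner ℝ f x : ℝ) < t * inner ℝ e x})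
      = len (frontier K ∩ {x | (inner ℝ f x : ℝ) < 0 ∧ t * inner ℝ e x < (inner ℝ f x : ℝ)}) := by
  set C := frontier K with hC
  have hfin : len C < ⊤ := len_lt_top hK hc h0
  have hf0 : f ≠ 0 := by
    intro h; rw [h] at hf; simp at hf
  have hft : f - t • e ≠ 0 := by
    intro h
    have h1 : (inner ℝ f (f - t • e) : ℝ) = 1 := by
      have hfe : (inner ℝ f e : ℝ) = 0 := by rw [real_inner_comm]; exact hef
      rw [inner_sub_right, inner_smul_right, hfe, real_inner_self_eq_norm_sq, hf]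
      norm_num
    rw [h, inner_zero_right] at h1
    norm_num at h1
  have b1 := hbis f hf0
  have b2 := hbis (f - t • e) hft
  unfold Bisects at b1 b2
  simp only [sub_zero, inner_sub_left, inner_smul_left, conj_trivial, sub_pos, sub_neg] at b1 b2
  -- null lines
  have n1 : len (C ∩ {x | (inner ℝ f x : ℝ) = 0}) = 0 := by
    apply line_null hc h0 e
    intro x hx
    refine ⟨inner ℝ e x, ?_⟩
    have := decomp he hf hef x
    have hx' : (inner ℝ f x : ℝ) = 0 := hx
    rw [hx', zero_smul, add_zero] at this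
    exact this
  have n2 : len (C ∩ {x | (inner ℝ f x : ℝ) = t * inner ℝ e x}) = 0 := by
    apply line_null hc h0 (e + t • f)
    intro x hx
    refine ⟨inner ℝ e x, ?_⟩
    have := decomp he hf hef x
    have hx' : (inner ℝ f x : ℝ) = t * inner ℝ e x := hx
    rw [hx'] at this
    rw [smul_add, smul_smul, mul_comm (inner ℝ e x : ℝ) t]
    exact this
  -- splitting of the four half-planes
  have hcf : Continuous fun x : Plane => (inner ℝ f x : ℝ) := by fun_prop
  have hce : Continuous fun x : Plane => t * (inner ℝ e x : ℝ) := by fun_prop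
  have mB : MeasurableSet {x : Plane | 0 < (inner ℝ f x : ℝ)} :=
    (isOpen_lt continuous_const hcf).measurableSet
  have mB' : MeasurableSet {x : Plane | (inner ℝ f x : ℝ) < 0} :=
    (isOpen_lt hcf continuous_const).measurableSet
  have mT : MeasurableSet {x : Plane | t * (inner ℝ e x : ℝ) < inner ℝ f x} :=
    (isOpen_lt hce hcf).measurableSet
  have mT' : MeasurableSet {x : Plane | (inner ℝ f x : ℝ) < t * inner ℝ e x} :=
    (isOpen_lt hcf hce).measurableSet
  have split : ∀ (A B S N : Set Plane), MeasurableSet B → A \ B ⊆ S ∪ N → S ⊆ A \ B →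
      len (C ∩ N) = 0 → len (C ∩ A) = len (C ∩ (A ∩ B)) + len (C ∩ S) := by
    intro A B S N hB h1 h2 h3
    have h4 : len (C ∩ A) = len ((C ∩ A) ∩ B) + len ((C ∩ A) \ B) :=
      (measure_inter_add_sdiff (C ∩ A) hB).symm
    have h5 : len ((C ∩ A) \ B) = len (C ∩ S) := by
      apply le_antisymm
      · calc len ((C ∩ A) \ B) ≤ len ((C ∩ S) ∪ (C ∩ N)) := by
              apply measure_mono
              rintro x ⟨⟨hxC, hxA⟩, hxB⟩
              rcases h1 ⟨hxA, hxB⟩ with h | h
              · exact Or.inl ⟨hxC, h⟩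
              · exact Or.inr ⟨hxC, h⟩
          _ ≤ len (C ∩ S) + len (C ∩ N) := measure_union_le _ _
          _ = len (C ∩ S) := by rw [h3, add_zero]
      · apply measure_mono
        rintro x ⟨hxC, hxS⟩
        exact ⟨⟨hxC, (h2 hxS).1⟩, (h2 hxS).2⟩
    rw [h4, h5, inter_assoc]
  set Sp : Set Plane := {x | 0 < (inner ℝ f x : ℝ) ∧ (inner ℝ f x : ℝ) < t * inner ℝ e x} with hSp
  set Sm : Set Plane := {x | (inner ℝ f x : ℝ) < 0 ∧ t * inner ℝ e x < (inner ℝ f x : ℝ)} with hSm
  set B : Set Plane := {x : Plane | 0 < (inner ℝ f x : ℝ)} with hBdef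
  set B' : Set Plane := {x : Plane | (inner ℝ f x : ℝ) < 0} with hBdef'
  set T : Set Plane := {x : Plane | t * (inner ℝ e x : ℝ) < inner ℝ f x} with hTdef
  set T' : Set Plane := {x : Plane | (inner ℝ f x : ℝ) < t * inner ℝ e x} with hTdef'
  have s1 : len (C ∩ B) = len (C ∩ (B ∩ T)) + len (C ∩ Sp) := by
    apply split B T Sp {x | (inner ℝ f x : ℝ) = t * inner ℝ e x} mT _ _ n2
    · rintro x ⟨hx1, hx2⟩
      have hx2' : (inner ℝ f x : ℝ) ≤ t * inner ℝ e x := not_lt.mp hx2
      rcases eq_or_lt_of_le hx2' with h | h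
      · exact Or.inr h
      · exact Or.inl ⟨hx1, h⟩
    · rintro x ⟨hx1, hx2⟩
      exact ⟨hx1, fun h => lt_asymm hx2 h⟩
  have s2 : len (C ∩ B') = len (C ∩ (B' ∩ T')) + len (C ∩ Sm) := by
    apply split B' T' Sm {x | (inner ℝ f x : ℝ) = t * inner ℝ e x} mT' _ _ n2
    · rintro x ⟨hx1, hx2⟩
      have hx2' : t * inner ℝ e x ≤ (inner ℝ f x : ℝ) := not_lt.mp hx2
      rcases eq_or_lt_of_le hx2' with h | h
      · exact Or.inr h.symm
      · exact Or.inl ⟨hx1, h⟩
    · rintro x ⟨hx1, hx2⟩
      exact ⟨hx1, fun h => lt_asymm hx2 h⟩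
  have s3 : len (C ∩ T) = len (C ∩ (B ∩ T)) + len (C ∩ Sm) := by
    rw [inter_comm B T]
    apply split T B Sm {x | (inner ℝ f x : ℝ) = 0} mB _ _ n1
    · rintro x ⟨hx1, hx2⟩
      have hx2' : (inner ℝ f x : ℝ) ≤ 0 := not_lt.mp hx2
      rcases eq_or_lt_of_le hx2' with h | h
      · exact Or.inr h
      · exact Or.inl ⟨h, hx1⟩
    · rintro x ⟨hx1, hx2⟩
      exact ⟨hx2, fun h => lt_asymm hx1 h⟩
  have s4 : len (C ∩ T') = len (C ∩ (B' ∩ T')) + len (C ∩ Sp) := by
    rw [inter_comm B' T']
    apply split T' B' Sp {x | (inner ℝ f x : ℝ) = 0} mB' _ _ n1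
    · rintro x ⟨hx1, hx2⟩
      have hx2' : 0 ≤ (inner ℝ f x : ℝ) := not_lt.mp hx2
      rcases eq_or_lt_of_le hx2' with h | h
      · exact Or.inr h.symm
      · exact Or.inl ⟨h, hx1⟩
    · rintro x ⟨hx1, hx2⟩
      exact ⟨hx2, fun h => lt_asymm hx1 h⟩
  have hb1 : len (C ∩ B) = len (C ∩ B') := b1
  have hb2 : len (C ∩ T) = len (C ∩ T') := b2
  have fin : ∀ A : Set Plane, len (C ∩ A) ≠ ⊤ := fun A =>
    ((measure_mono inter_subset_left).trans_lt hfin).ne
  rw [s1, s2] at hb1
  rw [s3, s4] at hb2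
  have r1 := congrArg ENNReal.toReal hb1
  have r2 := congrArg ENNReal.toReal hb2
  rw [ENNReal.toReal_add (fin _) (fin _), ENNReal.toReal_add (fin _) (fin _)] at r1 r2
  rw [← ENNReal.toReal_eq_toReal_iff' (fin _) (fin _)]
  linarith

/-- The key identity for one-sided derivatives. -/
lemma key_identity (hK : IsCompact K) (hc : Convex ℝ K) (h0 : (0 : Plane) ∈ interior K)
    (hbis : ∀ u : Plane, u ≠ 0 → Bisects (frontier K) 0 u)
    {e f : Plane} (he : ‖e‖ = 1) (hf : ‖f‖ = 1) (hef : (inner ℝ e f : ℝ) = 0) {a b : ℝ}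
    (ha : HasDerivWithinAt (fun t : ℝ => gauge K (e + t • f)) a (Ioi 0) 0)
    (hb : HasDerivWithinAt (fun t : ℝ => gauge K (-e + t • (-f))) b (Ioi 0) 0) :
    (gauge K e)⁻¹ ^ 2 + (a / gauge K e ^ 2) ^ 2
      = (gauge K (-e))⁻¹ ^ 2 + (b / gauge K (-e) ^ 2) ^ 2 := by
  have he' : ‖-e‖ = 1 := by rw [norm_neg]; exact he
  have hf' : ‖-f‖ = 1 := by rw [norm_neg]; exact hf
  have hef' : (inner ℝ (-e) (-f) : ℝ) = 0 := by rw [inner_neg_neg]; exact hef
  have hlen : ∀ t, 0 < t → len (arc e f (fun s => gauge K (e + s • f)) '' Ioo 0 t)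
      = len (arc (-e) (-f) (fun s => gauge K (-e + s • (-f))) '' Ioo 0 t) := by
    intro t ht
    rw [arc_image hK hc h0 he hf hef ht, arc_image hK hc h0 he' hf' hef' ht,
      sector_equal hK hc h0 hbis he hf hef ht]
    congr 2
    ext x
    simp only [mem_ofPred_eq, inner_neg_left]
    constructor
    · rintro ⟨h1, h2⟩
      exact ⟨by linarith, by linarith⟩
    · rintro ⟨h1, h2⟩
      exact ⟨by linarith, by linarith⟩
  have hpos : ∀ t : ℝ, 0 < gauge K (e + t • f) := fun t =>
    gauge_pos' hK h0 (ne_zero_of_orth he hef t)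
  have hpos' : ∀ t : ℝ, 0 < gauge K (-e + t • (-f)) := fun t =>
    gauge_pos' hK h0 (ne_zero_of_orth he' hef' t)
  have c1 := gauge_line_convex hc h0 e f
  have c2 := gauge_line_convex hc h0 (-e) (-f)
  have h1 := vel_le c1 hpos ha c2 hpos' hb (fun t ht => (hlen t ht).le)
  have h2 := vel_le c2 hpos' hb c1 hpos ha (fun t ht => (hlen t ht).ge)
  have h3 := le_antisymm h1 h2
  simp only [zero_smul, add_zero] at h3
  have hn : ∀ (e f : Plane) (h0 a : ℝ), ‖e‖ = 1 → ‖f‖ = 1 → (inner ℝ e f : ℝ) = 0 →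
      ‖vel e f h0 a‖ ^ 2 = h0⁻¹ ^ 2 + (a / h0 ^ 2) ^ 2 := by
    intro e f h0 a he hf hef
    have hfe : (inner ℝ f e : ℝ) = 0 := by rw [real_inner_comm]; exact hef
    unfold vel
    rw [norm_sub_sq_real, inner_smul_left, inner_smul_right, hfe, norm_smul, norm_smul, he, hf,
      mul_one, mul_one, Real.norm_eq_abs, Real.norm_eq_abs, sq_abs, sq_abs]
    ring
  rw [← hn e f _ a he hf hef, ← hn (-e) (-f) _ b he' hf' hef', h3]

/-- The theorem for the origin in the interior. -/
lemma symmetric_of_interior (hK : IsCompact K) (hc : Convex ℝ K) (h0 : (0 : Plane) ∈ interior K)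
    (hbis : ∀ u : Plane, u ≠ 0 → Bisects (frontier K) 0 u) (e : Plane) (he : ‖e‖ = 1) :
    (gauge K e)⁻¹ ≤ (gauge K (-e))⁻¹ := by
  have hcont := continuous_gauge hc (mem_interior_iff_mem_nhds.mp h0)
  have hne : ∀ x : Plane, ‖x‖ = 1 → x ≠ 0 := by
    intro x hx h
    rw [h] at hx
    simp at hx
  have hpos : ∀ x : Plane, ‖x‖ = 1 → 0 < gauge K x := fun x hx => gauge_pos' hK h0 (hne x hx)
  -- maximiser of the difference of the radial functions
  have hdc : ContinuousOn (fun x : Plane => (gauge K x)⁻¹ - (gauge K (-x))⁻¹)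
      (sphere (0 : Plane) 1) := by
    apply ContinuousOn.sub
    · exact hcont.continuousOn.inv₀ (fun x hx => (hpos x (mem_sphere_zero_iff_norm.mp hx)).ne')
    · apply ContinuousOn.inv₀
      · exact (hcont.comp continuous_neg).continuousOn
      · intro x hx
        exact (hpos (-x) (by rw [norm_neg]; exact mem_sphere_zero_iff_norm.mp hx)).ne'
  obtain ⟨e₀, he₀, hmax⟩ := (isCompact_sphere (0 : Plane) 1).exists_isMaxOn
    ⟨e, mem_sphere_zero_iff_norm.mpr he⟩ hdc
  have he₀n : ‖e₀‖ = 1 := mem_sphere_zero_iff_norm.mp he₀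
  have he₀n' : ‖-e₀‖ = 1 := by rw [norm_neg]; exact he₀n
  have hmax' : ∀ x : Plane, ‖x‖ = 1 →
      (gauge K x)⁻¹ - (gauge K (-x))⁻¹ ≤ (gauge K e₀)⁻¹ - (gauge K (-e₀))⁻¹ :=
    fun x hx => hmax (mem_sphere_zero_iff_norm.mpr hx)
  by_contra hcon
  push Not at hcon
  have hd0 : 0 < (gauge K e₀)⁻¹ - (gauge K (-e₀))⁻¹ := by
    have := hmax' e he
    linarith
  set H : ℝ := gauge K e₀ with hH
  set G : ℝ := gauge K (-e₀) with hG
  have hH0 : 0 < H := hpos e₀ he₀n
  have hG0 : 0 < G := hpos (-e₀) he₀n'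
  -- claim: the right derivative of the gauge on the far side is negative in both directions
  have claim : ∀ f : Plane, ‖f‖ = 1 → (inner ℝ e₀ f : ℝ) = 0 → ∀ b : ℝ,
      HasDerivWithinAt (fun t : ℝ => gauge K (-e₀ + t • (-f))) b (Ioi 0) 0 → b < 0 := by
    intro f hf hef b hb
    have c1 := gauge_line_convex hc h0 e₀ f
    have ha := c1.hasDerivWithinAt_rightDeriv_of_mem_interior (x := 0) (by simp)
    set a : ℝ := derivWithin (fun t : ℝ => gauge K (e₀ + t • f)) (Ioi 0) 0 with hadef
    have hid := key_identity hK hc h0 hbis he₀n hf hef ha hb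
    rw [← hH, ← hG] at hid
    -- the maximum condition
    have e1 : gauge K (e₀ + (0:ℝ) • f) = H := by simp [hH]
    have e2 : gauge K (-e₀ + (0:ℝ) • (-f)) = G := by simp [hG]
    have hF : HasDerivWithinAt (fun t : ℝ => (gauge K (e₀ + t • f))⁻¹
        - (gauge K (-e₀ + t • (-f)))⁻¹) (-a / H ^ 2 - -b / G ^ 2) (Ioi 0) 0 := by
      have i1 := ha.fun_inv (by rw [e1]; exact hH0.ne')
      have i2 := hb.fun_inv (by rw [e2]; exact hG0.ne')
      rw [e1] at i1
      rw [e2] at i2
      exact i1.fun_sub i2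
    have hFle : -a / H ^ 2 - -b / G ^ 2 ≤ 0 := by
      rw [hasDerivWithinAt_iff_tendsto_slope' (by simp)] at hF
      apply le_of_tendsto hF
      filter_upwards [self_mem_nhdsWithin] with t ht
      have ht' : 0 < t := ht
      rw [slope_def_field, sub_zero]
      apply div_nonpos_of_nonpos_of_nonneg _ ht'.le
      rw [e1, e2]
      -- normalise the vector
      set x : Plane := e₀ + t • f with hx
      have hxn : 1 ≤ ‖x‖ := by
        have h1 : (inner ℝ e₀ x : ℝ) = 1 := by
          rw [hx, inner_add_right, inner_smul_right, hef, real_inner_self_eq_norm_sq, he₀n]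
          norm_num
        have h2 := real_inner_le_norm e₀ x
        rw [h1, he₀n, one_mul] at h2
        exact h2
      have hx0 : 0 < ‖x‖ := by linarith
      have hxne : x ≠ 0 := norm_pos_iff.mp hx0
      have hy : ‖(‖x‖)⁻¹ • x‖ = 1 := by
        rw [norm_smul, norm_inv, norm_norm, inv_mul_cancel₀ hx0.ne']
      have h3 := hmax' _ hy
      have e3 : -((‖x‖)⁻¹ • x) = (‖x‖)⁻¹ • (-x) := by module
      have hxinv : 0 ≤ (‖x‖)⁻¹ := inv_nonneg.mpr hx0.le
      rw [e3, gauge_smul_of_nonneg hxinv, gauge_smul_of_nonneg hxinv, smul_eq_mul, smul_eq_mul,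
        mul_inv, mul_inv, inv_inv, ← mul_sub] at h3
      have e4 : -e₀ + t • (-f) = -x := by rw [hx]; module
      rw [e4]
      by_contra hcon2
      push Not at hcon2
      nlinarith
    -- conclusion
    have hHG : G⁻¹ < H⁻¹ := by linarith
    have hG1 : 0 < G⁻¹ := inv_pos.mpr hG0
    by_contra hb0
    push Not at hb0
    have k1 : 0 ≤ b / G ^ 2 := by positivity
    have k2 : b / G ^ 2 ≤ a / H ^ 2 := by
      have e5 : -a / H ^ 2 = -(a / H ^ 2) := by ring
      have e6 : -b / G ^ 2 = -(b / G ^ 2) := by ring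
      rw [e5, e6] at hFle
      linarith
    nlinarith
  -- a unit vector orthogonal to e₀
  obtain ⟨f, hf, hef⟩ : ∃ f : Plane, ‖f‖ = 1 ∧ (inner ℝ e₀ f : ℝ) = 0 := by
    refine ⟨!₂[-(e₀ 1), e₀ 0], ?_, ?_⟩
    · have h1 : ‖(!₂[-(e₀ 1), e₀ 0] : Plane)‖ ^ 2 = ‖e₀‖ ^ 2 := by
        rw [EuclideanSpace.real_norm_sq_eq, EuclideanSpace.real_norm_sq_eq, Fin.sum_univ_two,
          Fin.sum_univ_two]
        simp
        ring
      rw [he₀n] at h1
      nlinarith [norm_nonneg (!₂[-(e₀ 1), e₀ 0] : Plane)]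
    · simp [PiLp.inner_apply, Fin.sum_univ_two]
      ring
  have c2 := gauge_line_convex hc h0 (-e₀) (-f)
  have c3 := gauge_line_convex hc h0 (-e₀) (-(-f))
  have hb := c2.hasDerivWithinAt_rightDeriv_of_mem_interior (x := 0) (by simp)
  have hb' := c3.hasDerivWithinAt_rightDeriv_of_mem_interior (x := 0) (by simp)
  have n1 := claim f hf hef _ hb
  have n2 := claim (-f) (by rw [norm_neg]; exact hf) (by rw [inner_neg_right, hef, neg_zero]) _ hb'
  -- convexity contradicts this
  have hs := hb.add hb'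
  rw [hasDerivWithinAt_iff_tendsto_slope' (by simp)] at hs
  have hge : 0 ≤ derivWithin (fun t : ℝ => gauge K (-e₀ + t • (-f))) (Ioi 0) 0
      + derivWithin (fun t : ℝ => gauge K (-e₀ + t • (-(-f)))) (Ioi 0) 0 := by
    apply ge_of_tendsto hs
    filter_upwards [self_mem_nhdsWithin] with t ht
    have ht' : 0 < t := ht
    rw [slope_def_field, sub_zero]
    apply div_nonneg _ ht'.le
    simp only [Pi.add_apply, zero_smul, add_zero]
    have h1 : gauge K ((-e₀ + t • (-f)) + (-e₀ + t • (-(-f))))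
        ≤ gauge K (-e₀ + t • (-f)) + gauge K (-e₀ + t • (-(-f))) :=
      gauge_add_le hc (absorbent_nhds_zero (mem_interior_iff_mem_nhds.mp h0)) _ _
    have e7 : (-e₀ + t • (-f)) + (-e₀ + t • (-(-f))) = (2:ℝ) • (-e₀) := by module
    rw [e7, gauge_smul_of_nonneg (by norm_num), smul_eq_mul] at h1
    linarith
  linarith

/-- The bisecting point is an interior point. -/
lemma interior_of_bisects (hK : IsCompact K) (hc : Convex ℝ K) (hne : (interior K).Nonempty)
    (hbis : ∀ u : Plane, u ≠ 0 → Bisects (frontier K) 0 u) : (0 : Plane) ∈ interior K := by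
  by_contra hcon
  obtain ⟨F, hF⟩ := geometric_hahn_banach_open_point hc.interior isOpen_interior hcon
  rw [map_zero] at hF
  have hFK : ∀ x ∈ K, F x ≤ 0 := by
    intro x hx
    have h1 : x ∈ closure (interior K) := by
      rw [hc.closure_interior_eq_closure_of_nonempty_interior hne]
      exact subset_closure hx
    have h2 : closure (interior K) ⊆ {x | F x ≤ 0} :=
      closure_minimal (fun y hy => (hF y hy).le) (isClosed_le F.continuous continuous_const)
    exact h2 h1
  obtain ⟨p, hp⟩ := hne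
  have hFp := hF p hp
  set u : Plane := (InnerProductSpace.toDual ℝ Plane).symm F with hu
  have hFu : ∀ x, F x = inner ℝ u x := by
    intro x
    rw [hu, InnerProductSpace.toDual_symm_apply]
  have hu0 : u ≠ 0 := by
    intro h
    rw [hFu, h, inner_zero_left] at hFp
    exact lt_irrefl _ hFp
  have hfK : frontier K ⊆ K := hK.isClosed.frontier_subset
  have hb := hbis u hu0
  unfold Bisects at hb
  simp only [sub_zero] at hb
  have hempty : frontier K ∩ {x | 0 < (inner ℝ u x : ℝ)} = ∅ := by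
    rw [eq_empty_iff_forall_notMem]
    rintro x ⟨hx, hx2⟩
    have := hFK x (hfK hx)
    rw [hFu] at this
    have hx2' : 0 < (inner ℝ u x : ℝ) := hx2
    linarith
  rw [hempty] at hb
  have hzero : len (frontier K ∩ {x | (inner ℝ u x : ℝ) < 0}) = 0 := by
    rw [← hb]
    exact measure_empty
  -- a unit vector orthogonal to u
  have hun : 0 < ‖u‖ := norm_pos_iff.mpr hu0
  set v : Plane := !₂[-(u 1) / ‖u‖, u 0 / ‖u‖] with hv
  have hnsq : ‖u‖ ^ 2 = u 0 ^ 2 + u 1 ^ 2 := by
    rw [EuclideanSpace.real_norm_sq_eq, Fin.sum_univ_two]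
  have hvn : ‖v‖ = 1 := by
    have h1 : ‖v‖ ^ 2 = 1 := by
      rw [EuclideanSpace.real_norm_sq_eq, Fin.sum_univ_two]
      simp [hv, div_pow]
      field_simp
      linarith
    nlinarith [norm_nonneg v]
  have huv : (inner ℝ u v : ℝ) = 0 := by
    simp [PiLp.inner_apply, Fin.sum_univ_two, hv]
    field_simp
    ring
  obtain ⟨ε, hε, hball⟩ := Metric.isOpen_iff.mp isOpen_interior p hp
  have hlip : LipschitzWith 1 (fun x : Plane => (inner ℝ v x : ℝ)) := by
    apply LipschitzWith.of_dist_le_mul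
    intro x y
    rw [Real.dist_eq, ← inner_sub_right, dist_eq_norm]
    have := abs_real_inner_le_norm v (x - y)
    rw [hvn] at this
    simpa using this
  have h3 := hlip.hausdorffMeasure_image_le (d := 1) zero_le_one
    (frontier K ∩ {x | (inner ℝ u x : ℝ) < 0})
  rw [hausdorffMeasure_real] at h3
  simp only [ENNReal.coe_one, ENNReal.one_rpow, one_mul] at h3
  have hzero' : Measure.hausdorffMeasure 1 (frontier K ∩ {x | (inner ℝ u x : ℝ) < 0}) = 0 := hzero
  rw [hzero'] at h3
  have hsub : Ioo (inner ℝ v p : ℝ) (inner ℝ v p + ε)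
      ⊆ (fun x : Plane => (inner ℝ v x : ℝ)) '' (frontier K ∩ {x | (inner ℝ u x : ℝ) < 0}) := by
    intro y hy
    set s : ℝ := y - inner ℝ v p with hs
    have hs0 : 0 < s := by rw [hs]; linarith [hy.1]
    have hsε : s < ε := by rw [hs]; linarith [hy.2]
    set q : Plane := p + s • v with hq
    have hqK : q ∈ interior K := by
      apply hball
      rw [mem_ball, dist_eq_norm, hq, add_sub_cancel_left, norm_smul, hvn, mul_one,
        Real.norm_of_nonneg hs0.le]
      exact hsε
    -- the ray in direction -u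
    set A : Set ℝ := {τ | 0 ≤ τ ∧ q - τ • u ∈ K} with hA
    have hAne : (0:ℝ) ∈ A := ⟨le_rfl, by simpa using interior_subset hqK⟩
    obtain ⟨M, hM⟩ := hK.isBounded.exists_norm_le
    have hAbdd : BddAbove A := by
      refine ⟨(M + ‖q‖) / ‖u‖, ?_⟩
      rintro τ ⟨hτ0, hτ⟩
      rw [le_div_iff₀ hun]
      have h5 := hM _ hτ
      have h6 : ‖τ • u‖ ≤ ‖q - τ • u‖ + ‖q‖ := by
        have : τ • u = q - (q - τ • u) := by abel
        calc ‖τ • u‖ = ‖q - (q - τ • u)‖ := by rw [← this]
          _ ≤ ‖q‖ + ‖q - τ • u‖ := norm_sub_le _ _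
          _ = _ := add_comm _ _
      rw [norm_smul, Real.norm_of_nonneg hτ0] at h6
      linarith
    have hAcl : IsClosed A := by
      have : A = Ici 0 ∩ (fun τ : ℝ => q - τ • u) ⁻¹' K := rfl
      rw [this]
      exact isClosed_Ici.inter (hK.isClosed.preimage (by fun_prop))
    have hτ : sSup A ∈ A := hAcl.csSup_mem ⟨0, hAne⟩ hAbdd
    set τ := sSup A with hτdef
    have hnotint : q - τ • u ∉ interior K := by
      intro hint
      have hev : ∀ᶠ σ in 𝓝[>] τ, q - σ • u ∈ interior K := by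
        have hcont : Continuous fun σ : ℝ => q - σ • u := by fun_prop
        exact (hcont.tendsto τ).eventually (isOpen_interior.mem_nhds hint) |>.filter_mono
          nhdsWithin_le_nhds
      have hev2 : ∀ᶠ σ in 𝓝[>] τ, τ < σ := self_mem_nhdsWithin
      obtain ⟨σ, hσ1, hσ2⟩ := (hev.and hev2).exists
      have : σ ∈ A := ⟨hτ.1.trans hσ2.le, interior_subset hσ1⟩
      exact absurd (le_csSup hAbdd this) (not_le.mpr hσ2)
    refine ⟨q - τ • u, ⟨?_, ?_⟩, ?_⟩
    · rw [hK.isClosed.frontier_eq]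
      exact ⟨hτ.2, hnotint⟩
    · change (inner ℝ u (q - τ • u) : ℝ) < 0
      rw [inner_sub_right, inner_smul_right, hq, inner_add_right, inner_smul_right, huv,
        real_inner_self_eq_norm_sq, ← hFu]
      have : 0 ≤ τ * ‖u‖ ^ 2 := mul_nonneg hτ.1 (sq_nonneg _)
      linarith
    · change (inner ℝ v (q - τ • u) : ℝ) = y
      have hvu : (inner ℝ v u : ℝ) = 0 := by rw [real_inner_comm]; exact huv
      rw [inner_sub_right, inner_smul_right, hq, inner_add_right, inner_smul_right, hvu,
        real_inner_self_eq_norm_sq, hvn, hs]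
      ring
  have h4 := (measure_mono hsub).trans h3
  rw [Real.volume_Ioo] at h4
  have h5 : ENNReal.ofReal ((inner ℝ v p : ℝ) + ε - inner ℝ v p) = 0 := le_antisymm h4 (zero_le)
  rw [ENNReal.ofReal_eq_zero] at h5
  linarith

end body

/-- **Klamkin's problem: a point such that every line through it bisects the perimeter of a
convex closed curve is a centre of symmetry of the curve.** -/
theorem result (C : Set Plane) (O : Plane) (hC : IsConvexClosedCurve C)
    (h : ∀ u : Plane, u ≠ 0 → Bisects C O u) :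
    (fun x : Plane => (2 : ℝ) • O - x) '' C = C := by
  obtain ⟨K, hK, hc, hne, rfl⟩ := hC
  -- translate the point to the origin
  set φ : Plane ≃ᵢ Plane := IsometryEquiv.subRight O with hφ
  have hφa : ∀ x, φ x = x - O := fun x => rfl
  set K' : Set Plane := φ '' K with hK'
  have hK'c : IsCompact K' := hK.image φ.continuous
  have hfr : frontier K' = φ '' frontier K := (φ.toHomeomorph.image_frontier K).symm
  have hin : interior K' = φ '' interior K := (φ.toHomeomorph.image_interior K).symm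
  have hconv : Convex ℝ K' := by
    have e : K' = (fun x => x + (-O)) '' K := by
      rw [hK']
      apply image_congr
      intro x _
      rw [hφa, sub_eq_add_neg]
    rw [e]
    have := hc.translate (-O)
    have e2 : (fun x => x + (-O)) '' K = (fun z => -O + z) '' K := by
      apply image_congr
      intro x _
      exact add_comm _ _
    rw [e2]
    exact this
  have hne' : (interior K').Nonempty := by
    rw [hin]
    exact hne.image φ
  have hbis : ∀ u : Plane, u ≠ 0 → Bisects (frontier K') 0 u := by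
    intro u hu
    have h1 := h u hu
    unfold Bisects at h1 ⊢
    have e1 : frontier K' ∩ {x | 0 < (inner ℝ u (x - 0) : ℝ)}
        = φ '' (frontier K ∩ {x | 0 < (inner ℝ u (x - O) : ℝ)}) := by
      rw [hfr, image_inter φ.injective]
      congr 1
      ext y
      constructor
      · intro hy
        refine ⟨y + O, ?_, ?_⟩
        · simpa using hy
        · rw [hφa]; abel
      · rintro ⟨x, hx, rfl⟩
        simpa [hφa] using hx
    have e2 : frontier K' ∩ {x | (inner ℝ u (x - 0) : ℝ) < 0}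
        = φ '' (frontier K ∩ {x | (inner ℝ u (x - O) : ℝ) < 0}) := by
      rw [hfr, image_inter φ.injective]
      congr 1
      ext y
      constructor
      · intro hy
        refine ⟨y + O, ?_, ?_⟩
        · simpa using hy
        · rw [hφa]; abel
      · rintro ⟨x, hx, rfl⟩
        simpa [hφa] using hx
    rw [e1, e2]
    unfold len at h1 ⊢
    rw [φ.hausdorffMeasure_image, φ.hausdorffMeasure_image]
    exact h1
  have h0 := interior_of_bisects hK'c hconv hne' hbis
  have hsym := symmetric_of_interior hK'c hconv h0 hbis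
  -- the gauge is even
  have heven : ∀ x : Plane, gauge K' (-x) = gauge K' x := by
    intro x
    by_cases hx : x = 0
    · rw [hx, neg_zero]
    have hn : 0 < ‖x‖ := norm_pos_iff.mpr hx
    set e : Plane := (‖x‖)⁻¹ • x with he
    have hen : ‖e‖ = 1 := by
      rw [he, norm_smul, norm_inv, norm_norm, inv_mul_cancel₀ hn.ne']
    have h1 := hsym e hen
    have h2 := hsym (-e) (by rw [norm_neg]; exact hen)
    rw [neg_neg] at h2
    have h3 : (gauge K' e)⁻¹ = (gauge K' (-e))⁻¹ := le_antisymm h1 h2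
    have h4 : gauge K' e = gauge K' (-e) := inv_injective h3
    have e1 : x = ‖x‖ • e := by
      rw [he, smul_smul, mul_inv_cancel₀ hn.ne', one_smul]
    have e2 : -x = ‖x‖ • (-e) := by rw [smul_neg, ← e1]
    rw [e2, gauge_smul_of_nonneg hn.le, ← h4, ← gauge_smul_of_nonneg hn.le, ← e1]
  have hmem : ∀ x : Plane, x ∈ frontier K → (2 : ℝ) • O - x ∈ frontier K := by
    intro x hx
    have h1 : φ x ∈ frontier K' := by rw [hfr]; exact ⟨x, hx, rfl⟩
    rw [← gauge_eq_one_iff hconv h0] at h1
    have h2 : gauge K' (-(φ x)) = 1 := by rw [heven]; exact h1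
    rw [gauge_eq_one_iff hconv h0, hfr] at h2
    obtain ⟨y, hy, hyx⟩ := h2
    rw [hφa, hφa] at hyx
    have : (2 : ℝ) • O - x = y := by
      have h3 : y = -(x - O) + O := by rw [← hyx]; abel
      rw [h3, two_smul]
      abel
    rw [this]
    exact hy
  apply Subset.antisymm
  · rintro _ ⟨x, hx, rfl⟩
    exact hmem x hx
  · intro x hx
    refine ⟨(2 : ℝ) • O - x, hmem x hx, ?_⟩
    simp

end Pool.Agent.Results.MP_7f2f72_gt.KlamkinSymmetry
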